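import Pool.Agent.H26.LV.TargetsAri

/-!
# Powers of primes: the arithmetic majorant (rows PPA, PPB)
-/

set_option autoImplicit false

open Finset Polynomial

namespace Pool.Agent.H33.LV

open Pool.Agent.H26.LV

theorem Vge.mono {p v w : ℕ} {G : ℤ[X]} (h : Vge p v G) (hw : w ≤ v) : Vge p w G :=
  fun j hj => (pow_dvd_pow _ hw).trans (h j hj)

theorem Gen.vge {p μ w : ℕ} {G : ℤ[X]} (h : Gen p μ w G) : Vge p w G := by
  intro j hj
  rcases Nat.lt_or_ge j 3 with h3 | h3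
  · have : j = 2 := by omega
    subst this
    exact h.1
  · exact (pow_dvd_pow _ (Nat.le_add_right w μ)).trans (h.2.2 j h3)

theorem Maj.mono {q : ℕ} {A : ℤ → ℝ} {S₁ S₂ S₁' S₂' : ℝ} (h : Maj q A S₁ S₂) (h1 : S₁ ≤ S₁')
    (h2 : S₂ ≤ S₂') : Maj q A S₁' S₂' := by
  obtain ⟨n, a, T, x, h3, h4, h5, h6⟩ := h
  exact ⟨n, a, T, x, h3, h4, h5.trans h1, h6.trans h2⟩

theorem maj_one {q T : ℕ} {A : ℤ → ℝ} {a : ℝ} {x : ℤ} (ha : 0 ≤ a) (hT : T ∣ q)
    (h : ∀ l : ℤ, A l ≤ if ((q / T : ℕ) : ℤ) ∣ l - x then a else 0) : Maj q A (a * T) a := by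
  refine ⟨1, fun _ => a, fun _ => T, fun _ => x, fun _ => ⟨ha, hT⟩, ?_, ?_, ?_⟩
  · intro l
    simpa using h l
  · simp
  · simp

open Classical in
theorem card_cast {n : ℕ} {P : ℕ → Prop} {Q : ℤ → Prop} (h : ∀ y : ℕ, P y → Q (y : ℤ)) :
    ((range n).filter P).card ≤ ((range n).filter fun y => Q (y : ℤ)).card := by
  refine Finset.card_le_card_of_injOn (fun y : ℕ => (y : ℤ)) ?_ ?_
  · intro y hy
    have hy' := (Finset.mem_filter.1 hy)
    simp only [Finset.coe_filter, Set.mem_ofPred_eq]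
    refine ⟨?_, h y hy'.2⟩
    have := Finset.mem_range.1 hy'.1
    simpa using this
  · intro a _ b _ hab
    simpa using hab

/-- not terminal -/
def NT (μ p m : ℕ) (F : ℤ[X]) (i : ℕ) (y : ℤ) : Prop :=
  (¬ ∃ w, Gen p μ w (dsc p i y F)) ∧ ¬ Vge p (m - 1) (dsc p i y F)

theorem terminal (hVAL : T_VAL) {k μ p m i : ℕ} {F : ℤ[X]} {y : ℤ} (hp : p.Prime)
    (hk : F.natDegree ≤ k) (hP : Prm p F) (hμ : μ = 2 ∨ p ≠ 2 ∧ μ = 1) (him : i ≤ m)
    (h : ¬ NT μ p m F i y) : ∃ v, i ≤ v ∧ v ≤ m ∧ v ≤ k * i ∧ Vge p v (dsc p i y F) ∧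
      (v = m ∨ (v + 1 = m ∧ ¬ Vge p (v + 1) (dsc p i y F)) ∨
        ((μ = 2 ∨ p ≠ 2 ∧ μ = 1) ∧ Gen p μ v (dsc p i y F))) := by
  have h2i : Vge p (2 * i) (dsc p i y F) := hVAL.2.2.1 p i y F
  have h6 : ∀ v, Vge p v (dsc p i y F) → v ≤ k * i := fun v hv =>
    hVAL.2.2.2.2.2 k p i v y F hp hk hP hv
  by_cases hm : Vge p m (dsc p i y F)
  · exact ⟨m, him, le_rfl, h6 m hm, hm, Or.inl rfl⟩
  · have hm1 : 1 ≤ m := by
      rcases Nat.eq_zero_or_pos m with h0 | h0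
      · exfalso; apply hm; subst h0; intro j _; simp
      · exact h0
    by_cases hm2 : Vge p (m - 1) (dsc p i y F)
    · have him' : i ≤ m - 1 := by
        by_contra hc
        exact hm (Vge.mono h2i (by omega))
      refine ⟨m - 1, him', by omega, h6 _ hm2, hm2, Or.inr (Or.inl ⟨by omega, ?_⟩)⟩
      have : m - 1 + 1 = m := by omega
      rw [this]; exact hm
    · have hg : ∃ w, Gen p μ w (dsc p i y F) := by
        by_contra hc
        exact h ⟨hc, hm2⟩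
      obtain ⟨w, hw⟩ := hg
      have hwv := Gen.vge hw
      have hwm : w < m - 1 := by
        by_contra hc
        exact hm2 (Vge.mono hwv (by omega))
      have hiw : 2 * i < w + 1 := by
        by_contra hc
        exact hw.2.1 ((pow_dvd_pow _ (by omega)).trans (h2i 2 le_rfl))
      exact ⟨w, by omega, by omega, h6 w hwv, hwv, Or.inr (Or.inr ⟨hμ, hw⟩)⟩

/-- The numerical part of a member. -/
theorem numerics {k p m i v : ℕ} {C : ℝ} (hC : 1 ≤ C) (hp : p.Prime) (hk2 : 2 ≤ k) (hiv : i ≤ v)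
    (hvm : v ≤ m) (hvk : v ≤ k * i) :
    0 ≤ C / (p : ℝ) ^ (2 * i + (m - v)) ∧ p ^ (i + (m - v)) ∣ p ^ m ∧
    p ^ m / p ^ (i + (m - v)) = p ^ (v - i) ∧
    C / (p : ℝ) ^ (2 * i + (m - v)) * ((p ^ (i + (m - v)) : ℕ) : ℝ) ≤ C ∧
    C / (p : ℝ) ^ (2 * i + (m - v)) ≤ C * ((p : ℝ) ^ m) ^ (-(2 / (k : ℝ))) := by
  have hp0 : (0 : ℝ) < p := by exact_mod_cast hp.pos
  have hp1 : (1 : ℝ) ≤ p := by exact_mod_cast hp.one_le
  refine ⟨by positivity, pow_dvd_pow _ (by omega), ?_, ?_, ?_⟩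
  · rw [Nat.pow_div (by omega) hp.pos]
    congr 1
    omega
  · push_cast
    have e : 2 * i + (m - v) = i + (i + (m - v)) := by omega
    rw [e, pow_add, div_mul_eq_mul_div, div_le_iff₀ (by positivity)]
    have h1 : (1 : ℝ) ≤ (p : ℝ) ^ i := one_le_pow₀ hp1
    have h2 : (0 : ℝ) < (p : ℝ) ^ (i + (m - v)) := by positivity
    nlinarith [mul_le_mul_of_nonneg_right h1 h2.le]
  · rw [div_eq_mul_inv]
    refine mul_le_mul_of_nonneg_left ?_ (by linarith)
    rw [← Real.rpow_natCast (p : ℝ) (2 * i + (m - v)), ← Real.rpow_neg hp0.le,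
      ← Real.rpow_natCast (p : ℝ) m, ← Real.rpow_mul hp0.le]
    refine Real.rpow_le_rpow_of_exponent_le hp1 ?_
    have hk0 : (0 : ℝ) < k := by exact_mod_cast (by omega : 0 < k)
    have key : 2 * m ≤ k * (2 * i + (m - v)) := by
      obtain ⟨d, rfl⟩ := Nat.exists_eq_add_of_le hvm
      have e1 : v + d - v = d := by omega
      rw [e1]
      rcases Nat.le_total (v + d) (k * i) with h | h
      · nlinarith
      · obtain ⟨j, rfl⟩ := Nat.exists_eq_add_of_le hk2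
        have h3 : j * ((2 + j) * i) ≤ j * (v + d) := Nat.mul_le_mul_left j h
        nlinarith
    have key' : (2 : ℝ) * m ≤ k * ((2 * i + (m - v) : ℕ) : ℝ) := by exact_mod_cast key
    have h3 : (m : ℝ) * -(2 / (k : ℝ)) = -((2 * m) / k) := by ring
    rw [h3, neg_le_neg_iff, div_le_iff₀ hk0]
    linarith [key']

theorem dsc_zero (p : ℕ) (G : ℤ[X]) : dsc p 0 0 G = G := by
  unfold dsc
  simp

theorem cD_zero (p m : ℕ) (F : ℤ[X]) (l : ℤ) : cD p m 0 0 F l = SS (p ^ m) (F - C l * X) := by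
  unfold cD SS
  rw [dsc_zero]
  simp

/-- A terminal disc is a member. -/
theorem member (hTER : T_TER) (hVAL : T_VAL) {k : ℕ} (hk2 : 2 ≤ k) : ∃ C₀ : ℝ, 1 ≤ C₀ ∧
    ∀ (μ p m i : ℕ) (F : ℤ[X]) (y : ℤ), p.Prime → F.natDegree ≤ k → Prm p F →
    (μ = 2 ∨ p ≠ 2 ∧ μ = 1) → i ≤ m → ¬ NT μ p m F i y →
    ∃ (a : ℝ) (T : ℕ) (x : ℤ), 0 ≤ a ∧ T ∣ p ^ m ∧ a * T ≤ C₀ ∧
      a ≤ C₀ * ((p : ℝ) ^ m) ^ (-(2 / (k : ℝ))) ∧
      ∀ l : ℤ, ‖cD p m i y F l‖ ^ 2 ≤ if ((p ^ m / T : ℕ) : ℤ) ∣ l - x then a else 0 := by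
  obtain ⟨C₀, hC, h⟩ := hTER k hk2
  refine ⟨C₀, hC, ?_⟩
  intro μ p m i F y hp hk hP hμ him hN
  obtain ⟨v, h1, h2, h3, h4, h5⟩ := terminal hVAL hp hk hP hμ him hN
  obtain ⟨n1, n2, n3, n4, n5⟩ := numerics hC hp hk2 h1 h2 h3
  refine ⟨_, _, (derivative F).eval y, n1, n2, n4, n5, ?_⟩
  intro l
  rw [n3]
  have := h p m i v μ y F l hp hk h1 h2 h4 h5
  push_cast
  exact this

theorem NT.step (hVAL : T_VAL) {μ p m i : ℕ} {F : ℤ[X]} {y t : ℤ} (hp : p.Prime) (hμ : 1 ≤ μ)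
    (h : NT μ p m F (i + 1) (y + (p : ℤ) ^ i * t)) : NT μ p m F i y := by
  obtain ⟨h1, h2⟩ := h
  rw [hVAL.1 p i y t F] at h1 h2
  refine ⟨?_, ?_⟩
  · rintro ⟨w, hw⟩
    exact h1 ⟨w + 2, hVAL.2.2.2.2.1 p μ w t _ hp hμ hw⟩
  · intro hv
    exact h2 (Vge.mono (hVAL.2.2.2.1 p _ t _ hv) (by omega))

theorem NT.top (hVAL : T_VAL) {μ p m : ℕ} {F : ℤ[X]} {y : ℤ} : ¬ NT μ p m F m y :=
  fun h => h.2 (Vge.mono (hVAL.2.2.1 p m y F) (by omega))

open Classical in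
theorem pf_PPB (hTER : T_TER) (hNGB : T_NGB) (hVAL : T_VAL) (hTRE : T_TRE) (hMJS : T_MJS) :
    T_PPB := by
  intro k hk2
  obtain ⟨C₁, hC₁, hmem⟩ := member hTER hVAL hk2
  obtain ⟨N₀, hN₀⟩ := hNGB k
  have hkR : (2 : ℝ) ≤ k := by exact_mod_cast hk2
  refine ⟨C₁ * (((N₀ : ℝ) + 1) * k) ^ 2, ?_, ?_⟩
  · have h1 : (1 : ℝ) ≤ ((N₀ : ℝ) + 1) * k := by
      have : (0 : ℝ) ≤ N₀ := Nat.cast_nonneg _
      nlinarith
    have h2 : (1 : ℝ) ≤ (((N₀ : ℝ) + 1) * k) ^ 2 := one_le_pow₀ h1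
    nlinarith
  intro p m F hp hpk hk hP
  have hp0 : (0 : ℝ) < p := by exact_mod_cast hp.pos
  have hμ : (2 : ℕ) = 2 ∨ p ≠ 2 ∧ (2 : ℕ) = 1 := Or.inl rfl
  set B₂ : ℝ := C₁ * ((p : ℝ) ^ m) ^ (-(2 / (k : ℝ))) with hB₂
  have hB0 : 0 ≤ B₂ := by positivity
  have hbig : (1 : ℝ) ≤ (((N₀ : ℝ) + 1) * k) ^ 2 * ((m : ℝ) + 1) ^ 2 := by
    have h0 : (0 : ℝ) ≤ N₀ := Nat.cast_nonneg _
    have h0' : (0 : ℝ) ≤ m := Nat.cast_nonneg _
    have h1 : (1 : ℝ) ≤ ((N₀ : ℝ) + 1) * k := by nlinarith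
    have h2 : (1 : ℝ) ≤ (((N₀ : ℝ) + 1) * k) ^ 2 := one_le_pow₀ h1
    have h3 : (1 : ℝ) ≤ ((m : ℝ) + 1) ^ 2 := one_le_pow₀ (by linarith)
    nlinarith
  by_cases h00 : NT 2 p m F 0 0
  · have htre := fun l => hTRE p m F l (fun i y => NT 2 p m F i (y : ℤ)) hp
      (fun i y t h => NT.step hVAL hp (by norm_num) (by simpa using h))
      (fun y => NT.top hVAL) (by simpa using h00)
    let s : Finset (Σ _ : ℕ, Σ _ : ℕ, ℕ) := (range m).sigma fun i =>
      ((range (p ^ i)).filter (fun y : ℕ => NT 2 p m F i (y : ℤ))).sigma fun y : ℕ =>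
        (range p).filter (fun t : ℕ => ¬ NT 2 p m F (i + 1) ((y + p ^ i * t : ℕ) : ℤ))
    let u : (Σ _ : ℕ, Σ _ : ℕ, ℕ) → ℤ → ℂ := fun c l =>
      cD p m (c.1 + 1) ((c.2.1 : ℤ) + (p : ℤ) ^ c.1 * (c.2.2 : ℤ)) F l
    have hs : s.card ≤ m * (N₀ + 1) * k := by
      rw [Finset.card_sigma]
      calc ∑ i ∈ range m, _ ≤ ∑ i ∈ range m, (N₀ + 1) * k := by
            refine Finset.sum_le_sum fun i _ => ?_
            rw [Finset.card_sigma]
            calc _ ≤ ∑ y ∈ (range (p ^ i)).filter (fun y : ℕ => NT 2 p m F i (y : ℤ)), k := by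
                  refine Finset.sum_le_sum fun y _ => ?_
                  exact (Finset.card_filter_le _ _).trans (by simpa using hpk)
              _ ≤ (N₀ + 1) * k := by
                  rw [Finset.sum_const, smul_eq_mul]
                  refine Nat.mul_le_mul_right _ ?_
                  refine le_trans (card_cast (Q := fun y => ¬ ∃ w, Gen p 2 w (dsc p i y F))
                    (fun y hy => hy.1)) (le_trans (Finset.card_le_card ?_)
                    ((hN₀ p i F hp hpk hk hP).trans (Nat.le_succ N₀)))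
                  intro x hx
                  simp only [Finset.mem_filter] at hx ⊢
                  exact hx
        _ = m * (N₀ + 1) * k := by
            rw [Finset.sum_const, smul_eq_mul, Finset.card_range, mul_assoc]
    have hex : ∀ c : (Σ _ : ℕ, Σ _ : ℕ, ℕ), ∃ (a : ℝ) (T : ℕ) (x : ℤ), c ∈ s →
        (0 ≤ a ∧ T ∣ p ^ m ∧ a * T ≤ C₁ ∧ a ≤ B₂ ∧
        ∀ l : ℤ, ‖u c l‖ ^ 2 ≤ if ((p ^ m / T : ℕ) : ℤ) ∣ l - x then a else 0) := by
      intro c
      by_cases hc : c ∈ s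
      · have hc' := hc
        simp only [s, Finset.mem_sigma, Finset.mem_filter, Finset.mem_range] at hc'
        obtain ⟨hi, _, _, hN⟩ := hc'
        push_cast at hN
        obtain ⟨a, T, x, h⟩ := hmem 2 p m (c.1 + 1) F
          ((c.2.1 : ℤ) + (p : ℤ) ^ c.1 * (c.2.2 : ℤ)) hp hk hP hμ (by omega) hN
        exact ⟨a, T, x, fun _ => h⟩
      · exact ⟨0, 0, 0, fun h => absurd h hc⟩
    choose a T x hat using hex
    have hM := hMJS (p ^ m) (m * (N₀ + 1) * k) _ s u a T x C₁ B₂ hs (by linarith) hB0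
      (fun c hc => hat c hc)
    have hAA : (fun l => ‖∑ c ∈ s, u c l‖ ^ 2) = AA (p ^ m) F := by
      funext l
      unfold AA
      rw [htre l]
      congr 2
      simp only [s, u, Finset.sum_sigma]
    rw [hAA] at hM
    refine Maj.mono hM ?_ ?_
    · push_cast
      have h0' : (0 : ℝ) ≤ m := Nat.cast_nonneg _
      have h1 : ((m : ℝ) * ((N₀ : ℝ) + 1) * k) ^ 2 ≤ (((N₀ : ℝ) + 1) * k) ^ 2 * ((m : ℝ) + 1) ^ 2 := by
        rw [← mul_pow]
        refine pow_le_pow_left₀ (by positivity) ?_ 2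
        nlinarith [mul_nonneg (by positivity : (0 : ℝ) ≤ (N₀ : ℝ) + 1) (by positivity : (0 : ℝ) ≤ (k : ℝ))]
      nlinarith
    · push_cast
      have h1 : ((m : ℝ) * ((N₀ : ℝ) + 1) * k) ^ 2 ≤ (((N₀ : ℝ) + 1) * k) ^ 2 * ((m : ℝ) + 1) ^ 2 := by
        rw [← mul_pow]
        refine pow_le_pow_left₀ (by positivity) ?_ 2
        nlinarith [mul_nonneg (by positivity : (0 : ℝ) ≤ (N₀ : ℝ) + 1) (by positivity : (0 : ℝ) ≤ (k : ℝ))]
      calc _ ≤ ((((N₀ : ℝ) + 1) * k) ^ 2 * ((m : ℝ) + 1) ^ 2) * B₂ :=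
            mul_le_mul_of_nonneg_right h1 hB0
        _ = _ := by rw [hB₂]; ring
  · obtain ⟨a, T, x, h1, h2, h3, h4, h5⟩ := hmem 2 p m 0 F 0 hp hk hP hμ (Nat.zero_le _) h00
    have hM : Maj (p ^ m) (AA (p ^ m) F) (a * T) a := by
      refine maj_one (x := x) h1 h2 ?_
      intro l
      have := h5 l
      rw [cD_zero] at this
      exact this
    refine Maj.mono hM ?_ ?_
    · nlinarith
    · calc a ≤ B₂ := h4
        _ ≤ ((((N₀ : ℝ) + 1) * k) ^ 2 * ((m : ℝ) + 1) ^ 2) * B₂ := by nlinarith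
        _ = _ := by rw [hB₂]; ring

/-- A nontrivial disc has an exact exponent. -/
theorem exact_exp (hVAL : T_VAL) {k p m i : ℕ} {F : ℤ[X]} {y : ℤ} (hp : p.Prime)
    (hk : F.natDegree ≤ k) (hP : Prm p F) (h : NT 1 p m F i y) :
    ∃ v, i ≤ v ∧ v + 2 ≤ m ∧ v ≤ k * i ∧ Vge p v (dsc p i y F) ∧
      ¬ Vge p (v + 1) (dsc p i y F) := by
  classical
  have h2i : Vge p (2 * i) (dsc p i y F) := hVAL.2.2.1 p i y F
  have hex : ∃ n, ¬ Vge p n (dsc p i y F) := ⟨m - 1, h.2⟩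
  have h0 : Vge p 0 (dsc p i y F) := fun j _ => by simp
  have hn0 : Nat.find hex ≠ 0 := by
    intro h1
    have := Nat.find_spec hex
    rw [h1] at this
    exact this h0
  obtain ⟨v, hv⟩ := Nat.exists_eq_succ_of_ne_zero hn0
  have hv1 : Vge p v (dsc p i y F) := by
    by_contra hc
    have := Nat.find_min' hex hc
    omega
  have hv2 : ¬ Vge p (v + 1) (dsc p i y F) := by
    have := Nat.find_spec hex
    rw [hv] at this
    exact this
  have hv3 : v + 1 ≤ m - 1 := by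
    have := Nat.find_min' hex h.2
    omega
  have hv4 : 2 * i ≤ v := by
    by_contra hc
    exact hv2 (Vge.mono h2i (by omega))
  exact ⟨v, by omega, by omega, hVAL.2.2.2.2.2 k p i v y F hp hk hP hv1, hv1, hv2⟩

open Classical in
theorem pf_PPA (hTER : T_TER) (hFLT : T_FLT) (hNGA : T_NGA) (hVAL : T_VAL) (hTRE : T_TRE)
    (hMJS : T_MJS) : T_PPA := by
  intro k hk2
  obtain ⟨C₁, hC₁, hmem⟩ := member hTER hVAL hk2
  obtain ⟨C₂, hC₂, hflt⟩ := hFLT k hk2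
  have hkR : (2 : ℝ) ≤ k := by exact_mod_cast hk2
  set C : ℝ := max C₁ C₂ with hC
  have hC1 : (1 : ℝ) ≤ C := le_trans hC₁ (le_max_left _ _)
  refine ⟨C * ((k : ℝ) * (k + 1)) ^ 2, ?_, ?_⟩
  · have h1 : (1 : ℝ) ≤ (k : ℝ) * (k + 1) := by nlinarith
    have h2 : (1 : ℝ) ≤ ((k : ℝ) * (k + 1)) ^ 2 := one_le_pow₀ h1
    nlinarith
  intro p m F hp hkp hk hP
  have hp0 : (0 : ℝ) < p := by exact_mod_cast hp.pos
  have hp2 : p ≠ 2 := by omega
  have hμ : (1 : ℕ) = 2 ∨ p ≠ 2 ∧ (1 : ℕ) = 1 := Or.inr ⟨hp2, rfl⟩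
  set B₂ : ℝ := C * ((p : ℝ) ^ m) ^ (-(2 / (k : ℝ))) with hB₂
  have hB0 : 0 ≤ B₂ := by positivity
  have hBle : ∀ D : ℝ, D ≤ C → D * ((p : ℝ) ^ m) ^ (-(2 / (k : ℝ))) ≤ B₂ := fun D hD =>
    mul_le_mul_of_nonneg_right hD (by positivity)
  have hbig : (1 : ℝ) ≤ ((k : ℝ) * (k + 1)) ^ 2 * ((m : ℝ) + 1) ^ 2 := by
    have h0' : (0 : ℝ) ≤ m := Nat.cast_nonneg _
    have h1 : (1 : ℝ) ≤ (k : ℝ) * (k + 1) := by nlinarith
    have h2 : (1 : ℝ) ≤ ((k : ℝ) * (k + 1)) ^ 2 := one_le_pow₀ h1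
    have h3 : (1 : ℝ) ≤ ((m : ℝ) + 1) ^ 2 := one_le_pow₀ (by linarith)
    nlinarith
  by_cases h00 : NT 1 p m F 0 0
  · have htre := fun l => hTRE p m F l (fun i y => NT 1 p m F i (y : ℤ)) hp
      (fun i y t h => NT.step hVAL hp (by norm_num) (by simpa using h))
      (fun y => NT.top hVAL) (by simpa using h00)
    -- the flat children
    have hfl : ∀ i y : ℕ, ∃ Fl : Finset ℕ, NT 1 p m F i (y : ℤ) → (Fl ⊆ range p ∧
        (range p \ Fl).card ≤ k ∧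
        (∀ t ∈ Fl, ¬ NT 1 p m F (i + 1) ((y : ℤ) + (p : ℤ) ^ i * (t : ℤ))) ∧
        ∃ (a : ℝ) (T : ℕ) (x : ℤ), 0 ≤ a ∧ T ∣ p ^ m ∧ a * T ≤ C ∧ a ≤ B₂ ∧
          ∀ l : ℤ, ‖∑ t ∈ Fl, cD p m (i + 1) ((y : ℤ) + (p : ℤ) ^ i * (t : ℤ)) F l‖ ^ 2 ≤
            if ((p ^ m / T : ℕ) : ℤ) ∣ l - x then a else 0) := by
      intro i y
      by_cases hN : NT 1 p m F i (y : ℤ)
      · obtain ⟨v, h1, h2, h3, h4, h5⟩ := exact_exp hVAL hp hk hP hN
        obtain ⟨Fl, f1, f2, f3, f4⟩ := hflt p m i v (y : ℤ) F hp hkp hk h1 h2 h4 h5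
        obtain ⟨n1, n2, n3, n4, n5⟩ := numerics hC₂ hp hk2 h1 (by omega : v ≤ m) h3
        refine ⟨Fl, fun _ => ⟨f1, f2, fun t ht hNt => hNt.1 ⟨_, f3 t ht⟩, _, _,
          (derivative F).eval (y : ℤ), n1, n2, n4.trans (le_max_right _ _),
          n5.trans (hBle C₂ (le_max_right _ _)), ?_⟩⟩
        intro l
        rw [n3]
        push_cast
        exact f4 l
      · exact ⟨∅, fun h => absurd h hN⟩
    choose Fl hFl using hfl
    let s : Finset (Σ _ : ℕ, Σ _ : ℕ, Option ℕ) := (range m).sigma fun i =>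
      ((range (p ^ i)).filter (fun y : ℕ => NT 1 p m F i (y : ℤ))).sigma fun y : ℕ =>
        Finset.insertNone
        ((range p).filter (fun t : ℕ => ¬ NT 1 p m F (i + 1) ((y + p ^ i * t : ℕ) : ℤ)) \ Fl i y)
    let u : (Σ _ : ℕ, Σ _ : ℕ, Option ℕ) → ℤ → ℂ := fun c l =>
      match c with
      | ⟨i, y, none⟩ => ∑ t ∈ Fl i y, cD p m (i + 1) ((y : ℤ) + (p : ℤ) ^ i * (t : ℤ)) F l
      | ⟨i, y, some t⟩ => cD p m (i + 1) ((y : ℤ) + (p : ℤ) ^ i * (t : ℤ)) F l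
    have hs : s.card ≤ m * k * (k + 1) := by
      rw [Finset.card_sigma]
      calc ∑ i ∈ range m, _ ≤ ∑ i ∈ range m, k * (k + 1) := by
            refine Finset.sum_le_sum fun i _ => ?_
            rw [Finset.card_sigma]
            calc _ ≤ ∑ y ∈ (range (p ^ i)).filter (fun y : ℕ => NT 1 p m F i (y : ℤ)),
                    (k + 1) := by
                  refine Finset.sum_le_sum fun y hy => ?_
                  rw [Finset.card_insertNone]
                  have h1 := (hFl i y (Finset.mem_filter.1 hy).2).2.1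
                  have h2 : ((range p).filter (fun t : ℕ =>
                      ¬ NT 1 p m F (i + 1) ((y + p ^ i * t : ℕ) : ℤ)) \ Fl i y).card ≤
                      (range p \ Fl i y).card :=
                    Finset.card_le_card (Finset.sdiff_subset_sdiff (Finset.filter_subset _ _)
                      (Finset.Subset.refl _))
                  omega
              _ ≤ k * (k + 1) := by
                  rw [Finset.sum_const, smul_eq_mul]
                  refine Nat.mul_le_mul_right _ ?_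
                  refine le_trans (card_cast (Q := fun y => ¬ ∃ w, Gen p 1 w (dsc p i y F))
                    (fun y hy => hy.1)) (le_trans (Finset.card_le_card ?_)
                    (hNGA k p i F hp hkp hk hP))
                  intro x hx
                  simp only [Finset.mem_filter] at hx ⊢
                  exact hx
        _ = m * k * (k + 1) := by
            rw [Finset.sum_const, smul_eq_mul, Finset.card_range, mul_assoc]
    have hex : ∀ c : (Σ _ : ℕ, Σ _ : ℕ, Option ℕ), ∃ (a : ℝ) (T : ℕ) (x : ℤ), c ∈ s →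
        (0 ≤ a ∧ T ∣ p ^ m ∧ a * T ≤ C ∧ a ≤ B₂ ∧
        ∀ l : ℤ, ‖u c l‖ ^ 2 ≤ if ((p ^ m / T : ℕ) : ℤ) ∣ l - x then a else 0) := by
      rintro ⟨i, y, o⟩
      by_cases hc : (⟨i, y, o⟩ : (Σ _ : ℕ, Σ _ : ℕ, Option ℕ)) ∈ s
      · have hc' := hc
        simp only [s, Finset.mem_sigma, Finset.mem_range] at hc'
        obtain ⟨hi, hy, ho⟩ := hc'
        have hyN := (Finset.mem_filter.1 hy).2
        cases o with
        | none =>
          obtain ⟨a, T, x, h⟩ := (hFl i y hyN).2.2.2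
          exact ⟨a, T, x, fun _ => h⟩
        | some t =>
          rw [Finset.some_mem_insertNone, Finset.mem_sdiff, Finset.mem_filter] at ho
          have hN := ho.1.2
          push_cast at hN
          obtain ⟨a, T, x, g1, g2, g3, g4, g5⟩ := hmem 1 p m (i + 1) F
            ((y : ℤ) + (p : ℤ) ^ i * (t : ℤ)) hp hk hP hμ (by omega) hN
          exact ⟨a, T, x, fun _ => ⟨g1, g2, g3.trans (le_max_left _ _),
            g4.trans (hBle C₁ (le_max_left _ _)), g5⟩⟩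
      · exact ⟨0, 0, 0, fun h => absurd h hc⟩
    choose a T x hat using hex
    have hM := hMJS (p ^ m) (m * k * (k + 1)) _ s u a T x C B₂ hs (by linarith) hB0
      (fun c hc => hat c hc)
    have hAA : (fun l => ‖∑ c ∈ s, u c l‖ ^ 2) = AA (p ^ m) F := by
      funext l
      unfold AA
      rw [htre l]
      congr 2
      simp only [s, Finset.sum_sigma]
      refine Finset.sum_congr rfl fun i _ => ?_
      refine Finset.sum_congr rfl fun y hy => ?_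
      rw [Finset.sum_insertNone]
      have hyN := (Finset.mem_filter.1 hy).2
      obtain ⟨h1, h2, h3, h4⟩ := hFl i y hyN
      have hsub : Fl i y ⊆ (range p).filter
          (fun t : ℕ => ¬ NT 1 p m F (i + 1) ((y + p ^ i * t : ℕ) : ℤ)) := by
        intro t ht
        rw [Finset.mem_filter]
        refine ⟨h1 ht, ?_⟩
        push_cast
        exact h3 t ht
      rw [← Finset.sum_sdiff hsub, add_comm]
    rw [hAA] at hM
    have h0' : (0 : ℝ) ≤ m := Nat.cast_nonneg _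
    have h1 : ((m : ℝ) * k * ((k : ℝ) + 1)) ^ 2 ≤
        ((k : ℝ) * (k + 1)) ^ 2 * ((m : ℝ) + 1) ^ 2 := by
      rw [← mul_pow]
      refine pow_le_pow_left₀ (by positivity) ?_ 2
      nlinarith [mul_nonneg (by positivity : (0 : ℝ) ≤ (k : ℝ)) (by positivity : (0 : ℝ) ≤ (k : ℝ) + 1)]
    refine Maj.mono hM ?_ ?_
    · push_cast
      nlinarith
    · push_cast
      calc _ ≤ (((k : ℝ) * (k + 1)) ^ 2 * ((m : ℝ) + 1) ^ 2) * B₂ :=
            mul_le_mul_of_nonneg_right h1 hB0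
        _ = _ := by rw [hB₂]; ring
  · obtain ⟨a, T, x, h1, h2, h3, h4, h5⟩ := hmem 1 p m 0 F 0 hp hk hP hμ (Nat.zero_le _) h00
    have hM : Maj (p ^ m) (AA (p ^ m) F) (a * T) a := by
      refine maj_one (x := x) h1 h2 ?_
      intro l
      have := h5 l
      rw [cD_zero] at this
      exact this
    have h3' : a * T ≤ C := h3.trans (le_max_left _ _)
    refine Maj.mono hM ?_ ?_
    · nlinarith
    · calc a ≤ B₂ := h4.trans (hBle C₁ (le_max_left _ _))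
        _ ≤ (((k : ℝ) * (k + 1)) ^ 2 * ((m : ℝ) + 1) ^ 2) * B₂ := by nlinarith
        _ = _ := by rw [hB₂]; ring

end Pool.Agent.H33.LV
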