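import Pool.Agent.H27.LV.Basic

set_option autoImplicit false

namespace Pool.Agent.H27.LV

open MvPolynomial SC

namespace ALP

variable {K : Type} [Field K] {n d : ℕ}

/-- the block of the multiples of the variable `b` -/
noncomputable def blk (x : Fin (n + 1) → K) (b : Fin (n + 1)) :
    Matrix (Mon (n + 1) d) (Mon (n + 1) d) K :=
  Matrix.of fun p p' => (lin x * mono K p'.1).coeff
    (fs (fun j => p.1 j + if j = b then 1 else 0))

lemma add_single_ne {p p' : Fin (n + 1) → ℕ} {b j : Fin (n + 1)}
    (h : (fun i => p' i + if i = j then 1 else 0) = fun i => p i + if i = b then 1 else 0) :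
    (p' = p ∧ j = b) ∨ p b < p' b := by
  by_cases hj : j = b
  · left
    refine ⟨?_, hj⟩
    subst hj
    funext i
    have := congrFun h i
    omega
  · right
    have := congrFun h b
    simp only [if_true] at this
    rw [if_neg (fun h => hj h.symm)] at this
    omega

lemma blk_diag (x : Fin (n + 1) → K) (b : Fin (n + 1)) (p : Mon (n + 1) d) :
    blk x b p p = x b := by
  classical
  unfold blk
  rw [Matrix.of_apply, coeff_lin_mul_mono]
  rw [Finset.sum_eq_single b]
  · rw [if_pos rfl]
  · intro j _ hj
    rw [if_neg]
    intro h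
    rcases add_single_ne h with h1 | h1
    · exact hj h1.2
    · omega
  · intro h
    exact absurd (Finset.mem_univ b) h

lemma blk_zero (x : Fin (n + 1) → K) (b : Fin (n + 1)) (p p' : Mon (n + 1) d)
    (hne : p ≠ p') (hle : p'.1 b ≤ p.1 b) : blk x b p p' = 0 := by
  classical
  unfold blk
  rw [Matrix.of_apply, coeff_lin_mul_mono]
  refine Finset.sum_eq_zero fun j _ => ?_
  rw [if_neg]
  intro h
  rcases add_single_ne h with h1 | h1
  · exact hne (Subtype.ext h1.1.symm)
  · omega

lemma det_blk (x : Fin (n + 1) → K) (b : Fin (n + 1)) [DecidableEq (Mon (n + 1) d)] :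
    (blk (d := d) x b).det = x b ^ Fintype.card (Mon (n + 1) d) := by
  have htri : (blk (d := d) x b).BlockTriangular (fun p : Mon (n + 1) d => p.1 b) := by
    intro p p' hlt
    exact blk_zero x b p p' (fun h => by subst h; exact lt_irrefl _ hlt) hlt.le
  rw [htri.det]
  have h1 : ∀ c : ℕ, ((blk (d := d) x b).toSquareBlock (fun p : Mon (n + 1) d => p.1 b) c).det =
      x b ^ Fintype.card {p : Mon (n + 1) d // p.1 b = c} := by
    intro c
    have h2 : (blk (d := d) x b).toSquareBlock (fun p : Mon (n + 1) d => p.1 b) c =
        Matrix.diagonal (fun _ => x b) := by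
      ext p p'
      rw [Matrix.toSquareBlock_def, Matrix.of_apply]
      by_cases h : p = p'
      · subst h
        rw [Matrix.diagonal_apply_eq, blk_diag]
      · rw [Matrix.diagonal_apply_ne _ h]
        refine blk_zero x b _ _ (fun h' => h (Subtype.ext h')) ?_
        rw [p.2, p'.2]
    rw [h2, Matrix.det_diagonal, Finset.prod_const, Finset.card_univ]
  simp only [h1]
  rw [Finset.prod_pow_eq_pow_sum]
  congr 1
  rw [← Finset.card_univ, Finset.card_eq_sum_card_image (fun p : Mon (n + 1) d => p.1 b)
    Finset.univ]
  refine Finset.sum_congr rfl fun c _ => ?_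
  rw [Fintype.card_subtype]

end ALP

open ALP in
theorem alp (hSPL : T_SPL) : T_ALP := by
  classical
  intro K _ n d x b e
  obtain ⟨e', he1, he2⟩ := hSPL n d b
  let eb : Mon (n + 1) d ⊕ Mon n (d + 1) ≃ Mon (n + 1) (d + 1) := (Equiv.sumComm _ _).trans e'
  have hl : ∀ p, (eb (Sum.inl p)).1 = fun j => p.1 j + if j = b then 1 else 0 := fun p => he2 p
  have hr : ∀ q, (eb (Sum.inr q)).1 = insm b q := fun q => he1 q
  have hdet : ((alB d x b).submatrix eb id).det = x b ^ Fintype.card (Mon (n + 1) d) := by
    have h1 : (alB d x b).submatrix eb id = Matrix.fromBlocks (blk x b) 0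
        ((alB d x b).submatrix eb id).toBlocks₂₁ 1 := by
      ext i j
      rcases i with p | q <;> rcases j with p' | q'
      · simp only [Matrix.submatrix_apply, id, Matrix.fromBlocks_apply₁₁, blk, alB,
          Matrix.of_apply, hl]
      · simp only [Matrix.submatrix_apply, id, Matrix.fromBlocks_apply₁₂, alB,
          Matrix.of_apply, hl, Matrix.zero_apply]
        rw [coeff_mono, if_neg]
        intro h
        have := congrFun h b
        rw [insm_self] at this
        simp at this
      · rfl
      · simp only [Matrix.submatrix_apply, id, Matrix.fromBlocks_apply₂₂, alB,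
          Matrix.of_apply, hr]
        rw [coeff_mono, Matrix.one_apply]
        by_cases h : q = q'
        · subst h
          simp
        · rw [if_neg h, if_neg]
          intro h'
          exact h (insm_injective b h').symm
    rw [h1, Matrix.det_fromBlocks_zero₁₂, Matrix.det_one, mul_one, det_blk]
  let σ : Equiv.Perm (Mon (n + 1) d ⊕ Mon n (d + 1)) := e.trans eb.symm
  have h2 : (alB d x b).submatrix e id = ((alB d x b).submatrix eb id).submatrix σ id := by
    ext i j
    simp [σ]
  have h3 := Matrix.det_permute σ ((alB d x b).submatrix eb id)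
  rw [h2, h3, hdet]
  rcases Int.units_eq_one_or (Equiv.Perm.sign σ) with hs | hs
  · left
    rw [hs]
    simp
  · right
    rw [hs]
    simp

end Pool.Agent.H27.LV
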