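import Pool.Agent.H27.LV.Basic

set_option autoImplicit false

namespace Pool.Agent.H27.LV

open MvPolynomial SC

theorem hom : T_HOM := by
  intro k K _ _ _ n d ι _ a φ D x hφ
  refine ⟨?_, ?_, ?_⟩
  · intro g h
    simp only [uu, map_add, add_mul, Finset.sum_add_distrib, mul_add]
    ring
  · intro c g
    have h0 : (∑ i, C (eval (evk K (a i)) (C c * g) * (D (ell (a i) x) / ell (a i) x)) *
        MvPolynomial.map (algebraMap k K) (φ i)) = C c *
        ∑ i, C (eval (evk K (a i)) g * (D (ell (a i) x) / ell (a i) x)) *
        MvPolynomial.map (algebraMap k K) (φ i) := by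
      rw [Finset.mul_sum]
      refine Finset.sum_congr rfl fun i _ => ?_
      have h1 : eval (evk K (a i)) (C c * g) = c * eval (evk K (a i)) g := by
        rw [map_mul, eval_C]
      rw [h1, C_mul, C_mul, C_mul]
      ring
    unfold uu
    rw [h0]
    ring
  · intro g hg
    have h1 : (g * lin (fun j => D (x j))).IsHomogeneous (d + 2) := by
      have := hg.mul (isHomogeneous_lin (fun j => D (x j)))
      exact this
    have h2 : (∑ i, C (eval (evk K (a i)) g * (D (ell (a i) x) / ell (a i) x)) *
        MvPolynomial.map (algebraMap k K) (φ i)).IsHomogeneous (d + 1) := by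
      refine IsHomogeneous.sum _ _ _ fun i _ => ?_
      have h3 := (hφ.homog i).map (algebraMap k K)
      have := (isHomogeneous_C (Fin (n + 1))
        (eval (evk K (a i)) g * (D (ell (a i) x) / ell (a i) x))).mul h3
      simpa using this
    have h4 : (lin x * ∑ i, C (eval (evk K (a i)) g * (D (ell (a i) x) / ell (a i) x)) *
        MvPolynomial.map (algebraMap k K) (φ i)).IsHomogeneous (d + 2) := by
      have := (isHomogeneous_lin x).mul h2
      have he : 1 + (d + 1) = d + 2 := by omega
      rwa [he] at this
    exact h1.sub h4

end Pool.Agent.H27.LV
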