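import Pool.Agent.H27.LV.Basic

set_option autoImplicit false

namespace Pool.Agent.H27.LV

open MvPolynomial SC

theorem usc (hDK : T_DK) : T_USC := by
  intro k K _ _ _ n d ι _ a φ D x c hφ hell hc g hg
  have hrep := hDK k K n (d + 1) ι a φ hφ g hg
  have h1 : ∀ i, D (ell (a i) (fun j => c * x j)) / ell (a i) (fun j => c * x j) =
      D c / c + D (ell (a i) x) / ell (a i) x := by
    intro i
    rw [ell_smul, D.leibniz]
    have := hell i
    simp only [smul_eq_mul]
    field_simp
    ring
  have h2 : (fun j => D (c * x j)) = fun j => D c * x j + c * D (x j) := by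
    funext j
    rw [D.leibniz]
    simp only [smul_eq_mul]
    ring
  have h3 : lin (fun j => D (c * x j)) = C (D c) * lin x + C c * lin (fun j => D (x j)) := by
    rw [h2, lin_add, lin_smul, lin_smul]
  have h4 : (∑ i, C (eval (evk K (a i)) g * (D c / c + D (ell (a i) x) / ell (a i) x)) *
      MvPolynomial.map (algebraMap k K) (φ i)) =
      C (D c / c) * g + ∑ i, C (eval (evk K (a i)) g * (D (ell (a i) x) / ell (a i) x)) *
      MvPolynomial.map (algebraMap k K) (φ i) := by
    conv_rhs => rw [hrep]
    rw [Finset.mul_sum]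
    rw [← hrep]
    rw [← Finset.sum_add_distrib]
    refine Finset.sum_congr rfl fun i _ => ?_
    rw [mul_add, C_add, C_mul, C_mul]
    ring
  have h5 : C (D c) = (C c * C (D c / c) : MvPolynomial (Fin (n + 1)) K) := by
    rw [← C_mul]
    congr 1
    field_simp
  unfold uu
  simp only [h1]
  rw [h3, h4, lin_smul, h5]
  ring

end Pool.Agent.H27.LV
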